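import Mathlib
import Pool.Agent.Helper85.IG.Main

/-!
# Infinite exact patterns of consecutive primes of maximal growth, inside arbitrary infinite sets

Call a set `B` of natural numbers an exact pattern (in the class of `r` modulo `q`) if for every `R` there are
infinitely many `n ≡ r (mod q)` such that the primes within distance `R` of `n` are exactly the numbers
`n + b`, `b ∈ B`, `b ≤ R`. So every finite initial part of `B` is realised by consecutive primes infinitely often,
with no other prime in an arbitrarily long window.

How fast can an infinite exact pattern grow, and where can it be found? All methods give only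
`c log N` primes among `N` shifts, so a pattern with more than `C log X` elements below `X` is out of reach. The
theorem: EVERY infinite set `A` (such that the `r + a` are prime to `q`) contains an infinite exact pattern `B` with
at least `log |A ∩ [0, X)| / ψ(X)` elements below `X` for infinitely many `X`, which can moreover be taken from any
given infinite set `𝒳` of scales; `ψ` is any function tending to infinity, however slowly.

Known before (starting library, `Pool.Agent.H361R2.Inf`): an infinite exact pattern inside every infinite set, without
any bound for its growth; and one exact pattern with `(log X) ^ (1 - ε)` elements below infinitely many `X`.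

Method. (1) The block sieve of `H361R2` is run with arbitrary summable budgets: blocks of shifts are arranged in
groups, the `t`-th group consisting of about `2 ^ (-t) log X_t` blocks of `X_t ^ c` shifts each, so that nearly all of
the shifts below `X_t` are used in group `t`; a finitely additive intersectivity lemma gives one pattern which meets
a positive proportion of the blocks of infinitely many groups. (2) A selection inside an arbitrary infinite set `A`:
there is `A' ⊆ A` which misses a residue class modulo every prime with `|A ∩ [0, X)| ≤ |A' ∩ [0, X)| ^ 5` for
infinitely many `X` in `𝒳` (a reservoir in one class modulo a product of primes, and the removal of the least popular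
classes from what is chosen at each step).
-/

open Filter

namespace Pool.Agent.Results.MP_3ec731_nt.DenseInfinitePatterns

/-- `B` is an exact pattern in the class of `r` modulo `q`: for every `R` there are infinitely many `n ≡ r (mod q)`
such that for all integers `y` with `|y| ≤ R` the number `n + y` is prime if and only if `y` is in `B`. -/
def ExactPattern (q r : ℕ) (B : Set ℕ) : Prop :=
  ∀ R : ℕ, {n : ℕ | n ≡ r [MOD q] ∧
    ∀ y : ℤ, |y| ≤ R → (Nat.Prime ((n : ℤ) + y).toNat ↔ ∃ b ∈ B, (b : ℤ) = y)}.Infinite

/-- **Infinite exact patterns of maximal growth inside every infinite set.** Let `A` be an infinite set of natural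
numbers with all `r + a`, `a ∈ A`, prime to `q`, let `ψ` be a function which tends to infinity and `𝒳` an
infinite set. There is an infinite exact pattern `B ⊆ A` such that `|B ∩ [0, X)| ≥ log |A ∩ [0, X)| / ψ X`
for infinitely many `X ∈ 𝒳`. -/
theorem result (q r : ℕ) (hq : 1 ≤ q) (A : Set ℕ) (hA : A.Infinite) (hcop : ∀ a ∈ A, (r + a).Coprime q)
    (ψ : ℕ → ℝ) (hψ : Tendsto ψ atTop atTop) (𝒳 : Set ℕ) (h𝒳 : 𝒳.Infinite) :
    ∃ B ⊆ A, B.Infinite ∧ ExactPattern q r B ∧ ∃ᶠ X : ℕ in atTop, X ∈ 𝒳 ∧
      Real.log (A ∩ Set.Iio X).ncard ≤ ψ X * ((B ∩ Set.Iio X).ncard : ℝ) :=
  Pool.Agent.Helper85.IG.dense_in_set q r hq A hA hcop ψ hψ 𝒳 h𝒳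

end Pool.Agent.Results.MP_3ec731_nt.DenseInfinitePatterns
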