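import Mathlib
import Pool.Agent.Helper50.SP.Main

set_option autoImplicit false

/-!
# Spread distributions on the exact patterns, for all subsets and in the whole range of the Maynard-Tao theorem

Let `ε > 0`, let `V` be any admissible finite set of natural numbers and `m ≤ (1 / 4 - ε) log |V|`: this is the
range in which the theorem of Maynard and Tao gives `m` primes among the `n + v`, `v ∈ V`. There is a
probability distribution on the subsets `P` of `V` with at least `m` elements which are, infinitely often,
EXACT patterns (the primes in `[n - R, n + max P + R]` are exactly the `n + h`, `h ∈ P`; so `P` is realised as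
consecutive primes), such that for EVERY set `U ⊆ V` of at most `m` elements

  `Prob (U ⊆ P) ≤ (C m |U| / |V|) ^ |U|`,   `C = C(ε)`.

For `|U| = 2` and `m ≤ log |V| / 700` such a distribution was known (`SpreadPatterns`).

Some consequences. (1) The number of exact patterns with at least `m` elements in `V` is at least
`(|V| / (C m²)) ^ m`, uniformly in `m ≤ (1 / 4 - ε) log |V|`. So `V` contains at least
`exp ((1/4 - ε) (log |V|)²)` exact patterns, and at least `exp ((1/4 - ε) (log M)²)` words of length `M` occur
infinitely often in the characteristic sequence of the primes; the known exponent was `1/16`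
(`PatternComplexity`), and `1/4` is the limit for sets of primes whose size is that given by the theorem of
Maynard and Tao. (2) The proportion `(C m) ^ (-m)` of the `m`-element subsets of `V` is realised as consecutive
primes (the `m` first elements of the exact patterns) as soon as `log |V| ≥ (4 + ε) m + C`
(`ProportionOfPatterns`: for `|V|` sufficiently large in terms of `m`, by a box theorem). (3) For every
weight `w ≥ 0` on the sets `U` there is an exact pattern with `∑_{U ⊆ P} w U ≤ ∑ w U (C m |U| / |V|) ^ |U|`; so
there are patterns of consecutive primes in `V` which avoid any given sufficiently sparse system of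
configurations of any sizes.

Proof. The weights of the sieve of Maynard and Tao (`Pool.Agent.H358R5`, `Pool.Agent.Y876.HS.an`) with near
optimal parameters; for every set `U` the sum of the weights of the `n` for which all `n + u`, `u ∈ U`, are prime
is bounded by an upper bound sieve for the `|U|` primes whose level is adapted to `|U|`
(`Pool.Agent.Helper50.SP.core2`). The first moment of the number of primes, with a target below the
number given by the sieve, and the second moment give a positive proportion of the mass on the patterns with at
least `m` elements (`Pool.Agent.Helper50.SP.dist`); congruences exclude all other primes; the case of large `V`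
follows by averaging over the subsets of `V` with `exp (4 m + O(1))` elements.
-/

open Finset Filter

namespace Pool.Agent.Results.MP_3ec731_nt.SpreadExactPatterns

/-- `V` is admissible: for every prime `p` some translate of `V` contains no multiple of `p`. -/
def Admissible (V : Finset ℕ) : Prop :=
  ∀ p : ℕ, p.Prime → ∃ t : ℕ, ∀ v ∈ V, ¬ p ∣ t + v

/-- `n ≡ a (mod q)`, the numbers `n + h`, `h ∈ P`, are prime, and there is no other prime in
`[n - R, n + max P + R]`. -/
def Exactly (q a R : ℕ) (P : Finset ℕ) (n : ℕ) : Prop :=
  n ≡ a [MOD q] ∧ (∀ h ∈ P, (n + h).Prime) ∧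
    ∀ p : ℕ, p.Prime → n ≤ p + R → (∃ h ∈ P, p ≤ n + h + R) → ∃ h ∈ P, p = n + h

/-- the number of the `n ≤ x` with this property -/
noncomputable def count (q a R : ℕ) (P : Finset ℕ) (x : ℝ) : ℕ :=
  Set.ncard {n : ℕ | (n : ℝ) ≤ x ∧ Exactly q a R P n}

/-- `μ` is a probability distribution on the subsets of `V` with at least `m` elements such that a random set
contains a given set `U` of at most `m` elements with probability at most `(C m |U| / |V|) ^ |U|`. -/
def Spread (C : ℝ) (m : ℕ) (V : Finset ℕ) (μ : Finset ℕ → ℝ) : Prop :=
  (∀ P, 0 ≤ μ P) ∧ (∀ P, μ P ≠ 0 → P ⊆ V ∧ m ≤ P.card) ∧ ∑ P ∈ V.powerset, μ P = 1 ∧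
    ∀ U ⊆ V, U.card ≤ m →
      ∑ P ∈ V.powerset with U ⊆ P, μ P ≤ (C * m * U.card / V.card) ^ U.card

/-- For every `ε > 0` there is `C` such that for every `m ≥ 1` there is `B` with the following property. Let `V`
be an admissible set of natural numbers with `log |V| ≥ (4 + ε) m + C`, let `q ≥ 1` and let all `a + v`, `v ∈ V`, be
prime to `q` (no condition for `q = 1`). For every `R` and all large `x` there is a distribution as in `Spread`
all of whose values `P` are exact patterns, with the margin `R`, for at least `x / (log x) ^ B` integers `n ≤ x`
congruent to `a` modulo `q`. Moreover there is one such distribution `μ` which has this property for every `R`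
and arbitrarily large `x`. -/
theorem result (ε : ℝ) (hε : 0 < ε) : ∃ C : ℝ, 0 < C ∧ ∀ m : ℕ, 1 ≤ m → ∃ B : ℕ, ∀ V : Finset ℕ,
    (4 + ε) * m + C ≤ Real.log V.card → Admissible V →
    ∀ q a : ℕ, 1 ≤ q → (∀ v ∈ V, Nat.Coprime (a + v) q) →
    (∀ R : ℕ, ∀ᶠ x : ℝ in atTop, ∃ μ : Finset ℕ → ℝ, Spread C m V μ ∧
      ∀ P, μ P ≠ 0 → x / Real.log x ^ B ≤ count q a R P x) ∧
    ∃ μ : Finset ℕ → ℝ, Spread C m V μ ∧ ∀ R : ℕ, ∃ᶠ x : ℝ in atTop,
      ∀ P, μ P ≠ 0 → x / Real.log x ^ B ≤ count q a R P x :=
  Pool.Agent.Helper50.SP.main ε hε

end Pool.Agent.Results.MP_3ec731_nt.SpreadExactPatterns
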