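import Mathlib
import Pool.Agent.Helper50.TS.Main

set_option autoImplicit false

/-!
# Random subsets with about `m²` elements contain `m` consecutive primes in an exact pattern

By the theorem of Maynard and Tao every admissible set `W` with `|W| ≥ exp ((4 + ε) m + C)` contains an
`m`-element subset `H` such that the numbers `n + h`, `h ∈ H`, are, for infinitely many `n`, consecutive primes.
We show that for almost all `W` a number of elements which is QUADRATIC in `m` suffices: let `V` be any
admissible set with at least `exp ((4 + ε) m + C)` elements. Then for every `T` all but the proportion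
`2 ^ (1 - T / (C m²))` of the `T`-element subsets `W` of `V` contain an `m`-element subset `H` which is realised
infinitely often as consecutive primes (with at least `x / (log x) ^ B` realisations up to `x`, for arbitrarily
large `x`, with no other primes in `[n - R, n + max H]`, and in a given residue class). For `2 m ≤ T ≤ m²` the
proportion of the `T`-element subsets with this property is at least `(T / (C m²)) ^ m`.

Proof. By `SpreadExactPatterns` (a distribution on the exact patterns with
`Prob (U ⊆ P) ≤ (C m |U| / |V|) ^ |U|` for all `U`) and the second moment, over the random set `W`, of the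
probability that the first `m` elements of `P` are in `W`: the sizes of all intersections up to `m` contribute.
This gives a proportion at least `1/2` for `T ≈ 8 C m²`, also for the subsets of `V` with at least `|V| / 2`
elements. The proportion `2 ^ (1 - T / (C m²))` follows by successive exposure of blocks of `8 C m²` elements.
-/

open Finset Filter

namespace Pool.Agent.Results.MP_3ec731_nt.TypicalSubsets

/-- `V` is admissible: for every prime `p` some translate of `V` contains no multiple of `p`. -/
def Admissible (V : Finset ℕ) : Prop :=
  ∀ p : ℕ, p.Prime → ∃ t : ℕ, ∀ v ∈ V, ¬ p ∣ t + v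

/-- `n ≡ a (mod q)`, the numbers `n + h`, `h ∈ H`, are prime, and there is no other prime in
`[n - R, n + max H]`. -/
def Consecutive (q a R : ℕ) (H : Finset ℕ) (n : ℕ) : Prop :=
  n ≡ a [MOD q] ∧ (∀ h ∈ H, (n + h).Prime) ∧
    ∀ p : ℕ, p.Prime → n ≤ p + R → (∃ h ∈ H, p ≤ n + h) → ∃ h ∈ H, p = n + h

/-- the number of the `n ≤ x` with this property -/
noncomputable def number (q a R : ℕ) (H : Finset ℕ) (x : ℝ) : ℕ :=
  Set.ncard {n : ℕ | (n : ℝ) ≤ x ∧ Consecutive q a R H n}

/-- For every `T` at most the proportion `2 ^ (1 - T / (C m²))` of the `T`-element subsets of `V` contains no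
good set with `m` elements, and if `2 m ≤ T ≤ m²`, then the proportion of the `T`-element subsets of `V` which
contain a good set with `m` elements is at least `(T / (C m²)) ^ m`. -/
def Typical (C : ℝ) (m : ℕ) (V : Finset ℕ) (good : Finset ℕ → Prop) : Prop := ∀ T : ℕ,
  (Set.ncard {W : Finset ℕ | W ⊆ V ∧ W.card = T ∧ ¬ ∃ H ⊆ W, H.card = m ∧ good H} : ℝ) ≤
      2 ^ (1 - T / (C * m ^ 2) : ℝ) * (V.card.choose T : ℕ) ∧
    (2 * m ≤ T → T ≤ m ^ 2 → (T / (C * m ^ 2) : ℝ) ^ m * (V.card.choose T : ℕ) ≤
      Set.ncard {W : Finset ℕ | W ⊆ V ∧ W.card = T ∧ ∃ H ⊆ W, H.card = m ∧ good H})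

/-- For every `ε > 0` there is `C` such that for every `m ≥ 1` there is `B` with the following property. Let `V`
be an admissible set of natural numbers with `log |V| ≥ (4 + ε) m + C`, let `q ≥ 1` and let all `a + v`, `v ∈ V`, be
prime to `q` (no condition for `q = 1`). Then `Typical C m V` holds for the sets `H` which have, for every `R`
and arbitrarily large `x`, at least `x / (log x) ^ B` realisations as consecutive primes up to `x`, with the
margin `R` on the left and in the residue class `a` modulo `q`. It also holds, for every `R` and every
sufficiently large `x`, for the sets `H` with at least `x / (log x) ^ B` such realisations up to this `x`. -/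
theorem result (ε : ℝ) (hε : 0 < ε) : ∃ C : ℝ, 0 < C ∧ ∀ m : ℕ, 1 ≤ m → ∃ B : ℕ, ∀ V : Finset ℕ,
    (4 + ε) * m + C ≤ Real.log V.card → Admissible V →
    ∀ q a : ℕ, 1 ≤ q → (∀ v ∈ V, Nat.Coprime (a + v) q) →
    (∀ R : ℕ, ∀ᶠ x : ℝ in atTop, Typical C m V (fun H => x / Real.log x ^ B ≤ number q a R H x)) ∧
    Typical C m V (fun H => ∀ R : ℕ, ∃ᶠ x : ℝ in atTop, x / Real.log x ^ B ≤ number q a R H x) :=
  Pool.Agent.Helper50.TS.final ε hε

end Pool.Agent.Results.MP_3ec731_nt.TypicalSubsets
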