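import Pool.Agent.Helper51.UD.HP.Fin

/-!
# Exact prime patterns at all points of many dilates of arbitrary bounded sets

Let `F` be an infinite set of integers and `χ` a finite colouring of the natural numbers. There is an infinite
`G ⊆ F` such that for EVERY `I ⊆ G` (finite or infinite) there is `γ` such that for every distance `R` there is an
infinite set of numbers `X` with the following property for all `k`, all `0 < ε < 1` and some `C`. Let `X ≥ C`, `H ≥ 1`
and `D` be such that `D ≥ (log X) ^ C`, `D ≥ H ^ ε` and `D H ≤ X ^ (1 - ε)`, and let `T` be ANY set of at most `k`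
integers in `[0, H]`. At least `D ^ (1 - ε)` of the dilations `1 ≤ d ≤ D` are such that for at least `X / D ^ ε` of the
integers `1 ≤ n ≤ X` the pattern `I` occurs exactly, up to the distance `R`, at each of the points `n + d t`, `t ∈ T`:
the primes in `[n + d t - R, n + d t + R]` are exactly the numbers `n + d t + y`, `y ∈ I`, `|y| ≤ R`, and the prime
`n + d t + y` has the colour `γ y`.

Nothing is assumed about `T`: it may depend on `X` and have elements as large as `X ^ (1 - 2 ε)`, and `C` does not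
depend on it. For `T = {0, ..., k - 1}` these are arithmetic progressions of blocks of consecutive primes with the
same pattern.
-/

set_option autoImplicit false

namespace Pool.Agent.Results.MP_3ec731_nt.UniformHomotheticPatterns

/-- The pattern `I` occurs exactly at `m`, up to the distance `R`, with the colours `γ`: the primes in
`[m - R, m + R]` are exactly the `m + y` with `y ∈ I`, `|y| ≤ R`, and the colour of `m + y` is `γ y`. -/
def Occurs {r : ℕ} (χ : ℕ → Fin (r + 1)) (I : Set ℤ) (γ : ℤ → Fin (r + 1)) (R m : ℕ) : Prop :=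
  ∀ y : ℤ, |y| ≤ R → ((Nat.Prime ((m : ℤ) + y).toNat ↔ y ∈ I) ∧ (y ∈ I → χ ((m : ℤ) + y).toNat = γ y))

/-- **Exact prime patterns at all points of many dilates of arbitrary bounded sets.** -/
theorem result (r : ℕ) (χ : ℕ → Fin (r + 1)) (F : Set ℤ) (hF : F.Infinite) :
    ∃ G ⊆ F, G.Infinite ∧ ∀ I ⊆ G, ∃ γ : ℤ → Fin (r + 1), ∀ R : ℕ, ∃ 𝒳 : Set ℕ, 𝒳.Infinite ∧
      ∀ (k : ℕ) (ε : ℝ), 0 < ε → ε < 1 → ∃ C : ℕ, ∀ X ∈ 𝒳, C ≤ X → ∀ H D : ℕ, 1 ≤ H →
        Real.log X ^ C ≤ D → (H : ℝ) ^ ε ≤ D → (D : ℝ) * H ≤ (X : ℝ) ^ (1 - ε) →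
        ∀ T : Finset ℕ, T.card ≤ k → (∀ t ∈ T, t ≤ H) →
          (D : ℝ) ^ (1 - ε) ≤ ({d : ℕ | d ∈ Set.Icc 1 D ∧ (X : ℝ) / (D : ℝ) ^ ε ≤
            ({n : ℕ | n ∈ Set.Icc 1 X ∧ ∀ t ∈ T, Occurs χ I γ R (n + d * t)}.ncard : ℝ)}.ncard : ℝ) := by
  obtain ⟨G, hGF, hG, h⟩ := Pool.Agent.Helper51.UD.HP.her r χ F hF
  refine ⟨G, hGF, hG, fun I hI => ?_⟩
  obtain ⟨γ, hγ⟩ := h I hI
  refine ⟨γ, fun R => ?_⟩
  obtain ⟨𝒳, h𝒳, h⟩ := Pool.Agent.Helper51.UD.HP.hom_of_pos (hγ R)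
  have e : ∀ m, m ∈ Pool.Agent.Helper51.UD.HP.Pt χ I γ R ↔ Occurs χ I γ R m := fun m => Iff.rfl
  refine ⟨𝒳, h𝒳, fun k ε hε hε1 => ?_⟩
  obtain ⟨C, hC⟩ := h k ε hε hε1
  refine ⟨C, fun X hX hCX H D h1 h2 h3 h4 T h5 h6 => ?_⟩
  have h7 := hC X hX hCX H D h1 h2 h3 h4 T h5 h6
  simp only [e] at h7
  exact h7

end Pool.Agent.Results.MP_3ec731_nt.UniformHomotheticPatterns
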